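import Mathlib

set_option autoImplicit false

/-!
# Checkpoint functions

`b : ℕ →₀ ℤ` codes the finitely supported vector with coordinates `b i * 2^{-(i+2)}`.  For each level
`n` we follow the partial sums `∑_{i<t} b_i v_i` only at the times at which the integer part of
`4^n ∑_{i<t} b_i^2` jumps.
-/

namespace Pool.Agent.K9h84.CQ

open Finset

noncomputable section

/-- the grid size of the `i`-th coordinate -/
def eta (i : ℕ) : ℝ := (1/2)^(i+2)

/-- the real coordinates of a coded vector -/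
def bh (b : ℕ →₀ ℤ) (i : ℕ) : ℝ := (b i : ℝ) * eta i

/-- the mass of the coded vector before time `t` -/
def M (b : ℕ →₀ ℤ) (t : ℕ) : ℝ := ∑ i ∈ range t, (bh b i)^2

lemma M_nonneg (b : ℕ →₀ ℤ) (t : ℕ) : 0 ≤ M b t := Finset.sum_nonneg fun _ _ => sq_nonneg _

lemma M_mono (b : ℕ →₀ ℤ) : Monotone (M b) := by
  intro s t h
  exact Finset.sum_le_sum_of_subset_of_nonneg (range_subset_range.2 h) fun _ _ _ => sq_nonneg _

/-- the integer part of the rescaled mass -/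
def fl (n : ℕ) (b : ℕ →₀ ℤ) (t : ℕ) : ℕ := ⌊(4:ℝ)^n * M b t⌋₊

lemma fl_mono (n : ℕ) (b : ℕ →₀ ℤ) : Monotone (fl n b) := by
  intro s t h
  exact Nat.floor_mono (mul_le_mul_of_nonneg_left (M_mono b h) (by positivity))

lemma fl_succ (n : ℕ) (b : ℕ →₀ ℤ) (t : ℕ) : fl n b t = fl (n+1) b t / 4 := by
  unfold fl
  rw [← Nat.floor_div_ofNat]
  congr 1
  rw [pow_succ]
  ring

lemma q_ex (n : ℕ) (b : ℕ →₀ ℤ) (t : ℕ) : ∃ t', fl n b t' = fl n b t := ⟨t, rfl⟩

open Classical in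
/-- the last checkpoint of level `n` before `t` -/
def q (n : ℕ) (b : ℕ →₀ ℤ) (t : ℕ) : ℕ := Nat.find (q_ex n b t)

lemma q_le (n : ℕ) (b : ℕ →₀ ℤ) (t : ℕ) : q n b t ≤ t := Nat.find_min' _ rfl

lemma fl_q (n : ℕ) (b : ℕ →₀ ℤ) (t : ℕ) : fl n b (q n b t) = fl n b t := by
  classical
  exact Nat.find_spec (q_ex n b t)

lemma q_congr {n : ℕ} {b : ℕ →₀ ℤ} {s t : ℕ} (h : fl n b s = fl n b t) : q n b s = q n b t := by
  unfold q
  congr 1
  funext t'
  rw [h]

lemma mass_block (n : ℕ) (b : ℕ →₀ ℤ) (t : ℕ) : M b t - M b (q n b t) ≤ (1/4)^n := by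
  have h1 : (4:ℝ)^n * M b t < (fl n b t : ℝ) + 1 := Nat.lt_floor_add_one _
  have h2 : (fl n b (q n b t) : ℝ) ≤ (4:ℝ)^n * M b (q n b t) :=
    Nat.floor_le (mul_nonneg (by positivity) (M_nonneg _ _))
  rw [fl_q] at h2
  have h3 : (4:ℝ)^n * (M b t - M b (q n b t)) ≤ 1 := by linarith
  have h4 : ((1:ℝ)/4)^n * (4:ℝ)^n = 1 := by
    rw [← mul_pow]; norm_num
  have h5 : (0:ℝ) < (1/4)^n := by positivity
  calc M b t - M b (q n b t) = (1/4)^n * ((4:ℝ)^n * (M b t - M b (q n b t))) := by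
        rw [← mul_assoc, h4, one_mul]
    _ ≤ (1/4)^n * 1 := mul_le_mul_of_nonneg_left h3 h5.le
    _ = (1/4)^n := mul_one _

/-- the sum followed at checkpoints -/
def P (n : ℕ) (b : ℕ →₀ ℤ) (t : ℕ) (v : ℕ →₀ ℝ) : ℝ := ∑ i ∈ range (q n b t), bh b i * v i

/-- the full sum -/
def R (b : ℕ →₀ ℤ) (t : ℕ) (v : ℕ →₀ ℝ) : ℝ := ∑ i ∈ range t, bh b i * v i

/-- square of the Euclidean norm -/
def n2 (v : ℕ →₀ ℝ) : ℝ := ∑ i ∈ v.support, (v i)^2

/-- the Euclidean norm -/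
def nrm (v : ℕ →₀ ℝ) : ℝ := Real.sqrt (n2 v)

lemma n2_nonneg (v : ℕ →₀ ℝ) : 0 ≤ n2 v := Finset.sum_nonneg fun _ _ => sq_nonneg _

lemma nrm_nonneg (v : ℕ →₀ ℝ) : 0 ≤ nrm v := Real.sqrt_nonneg _

lemma nrm_sq (v : ℕ →₀ ℝ) : nrm v ^ 2 = n2 v := Real.sq_sqrt (n2_nonneg v)

lemma n2_eq {v : ℕ →₀ ℝ} {s : Finset ℕ} (h : v.support ⊆ s) : n2 v = ∑ i ∈ s, (v i)^2 := by
  unfold n2
  apply Finset.sum_subset h
  intro i _ hi
  rw [Finsupp.notMem_support_iff.1 hi]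
  norm_num

lemma sum_sq_le (v : ℕ →₀ ℝ) (s : Finset ℕ) : ∑ i ∈ s, (v i)^2 ≤ n2 v := by
  rw [n2_eq (Finset.subset_union_left (s₁ := v.support) (s₂ := s))]
  exact Finset.sum_le_sum_of_subset_of_nonneg Finset.subset_union_right fun _ _ _ => sq_nonneg _

lemma abs_sum_le (b : ℕ →₀ ℤ) (v : ℕ →₀ ℝ) (s : Finset ℕ) {c : ℝ} (hc : 0 ≤ c)
    (h : ∑ i ∈ s, (bh b i)^2 ≤ c^2) : |∑ i ∈ s, bh b i * v i| ≤ c * nrm v := by
  apply abs_le_of_sq_le_sq _ (mul_nonneg hc (nrm_nonneg v))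
  rw [mul_pow, nrm_sq]
  calc (∑ i ∈ s, bh b i * v i)^2 ≤ (∑ i ∈ s, (bh b i)^2) * ∑ i ∈ s, (v i)^2 :=
        Finset.sum_mul_sq_le_sq_mul_sq _ _ _
    _ ≤ c^2 * n2 v := mul_le_mul h (sum_sq_le v s) (Finset.sum_nonneg fun _ _ => sq_nonneg _)
        (sq_nonneg c)

lemma R_sub_P (n : ℕ) (b : ℕ →₀ ℤ) (t : ℕ) (v : ℕ →₀ ℝ) :
    |R b t v - P n b t v| ≤ (1/2)^n * nrm v := by
  have h0 : R b t v - P n b t v = ∑ i ∈ Finset.Ico (q n b t) t, bh b i * v i := by
    unfold R P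
    rw [Finset.sum_Ico_eq_sub _ (q_le n b t)]
  rw [h0]
  apply abs_sum_le _ _ _ (by positivity)
  have h1 : ∑ i ∈ Finset.Ico (q n b t) t, (bh b i)^2 = M b t - M b (q n b t) := by
    rw [Finset.sum_Ico_eq_sub _ (q_le n b t)]
    rfl
  rw [h1]
  refine (mass_block n b t).trans (le_of_eq ?_)
  rw [← pow_mul, mul_comm n 2, pow_mul]
  norm_num

/-- the coded vectors of the unit ball -/
def Ball (b : ℕ →₀ ℤ) : Prop := ∀ t, M b t ≤ 1

lemma P_le {b : ℕ →₀ ℤ} (hb : Ball b) (n t : ℕ) (v : ℕ →₀ ℝ) : |P n b t v| ≤ nrm v := by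
  have h := abs_sum_le b v (range (q n b t)) (c := 1) zero_le_one (by
    rw [one_pow]; exact hb _)
  rw [one_mul] at h
  exact h

/-- successive differences of the checkpoint functions -/
def U : ℕ → (ℕ →₀ ℤ) → ℕ → (ℕ →₀ ℝ) → ℝ
  | 0, b, t, v => P 0 b t v
  | (n+1), b, t, v => P (n+1) b t v - P n b t v

lemma U_le {b : ℕ →₀ ℤ} (hb : Ball b) (n t : ℕ) (v : ℕ →₀ ℝ) :
    |U n b t v| ≤ 3 * (1/2)^n * nrm v := by
  have hn := nrm_nonneg v
  cases n with
  | zero =>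
    refine (P_le hb 0 t v).trans ?_
    rw [pow_zero]
    linarith
  | succ n =>
    have h1 := R_sub_P (n+1) b t v
    have h2 := R_sub_P n b t v
    have h3 : U (n+1) b t v = (R b t v - P n b t v) - (R b t v - P (n+1) b t v) := by
      simp only [U]
      ring
    rw [h3]
    refine (abs_sub _ _).trans ?_
    rw [pow_succ] at h1 ⊢
    linarith

lemma sum_U (b : ℕ →₀ ℤ) (t : ℕ) (v : ℕ →₀ ℝ) (n : ℕ) :
    ∑ k ∈ range (n+1), U k b t v = P n b t v := by
  induction n with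
  | zero => simp [U]
  | succ n ih => rw [Finset.sum_range_succ, ih]; simp [U]

lemma hasSum_U {b : ℕ →₀ ℤ} (hb : Ball b) (t : ℕ) (v : ℕ →₀ ℝ) :
    HasSum (fun n => U n b t v) (R b t v) := by
  have hs : Summable (fun n => U n b t v) := by
    apply Summable.of_norm_bounded (g := fun n => 3 * (1/2)^n * nrm v)
    · exact ((summable_geometric_of_lt_one (by norm_num) (by norm_num)).mul_left 3).mul_right _
    · intro n
      exact U_le hb n t v
  rw [hs.hasSum_iff_tendsto_nat]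
  rw [← Filter.tendsto_add_atTop_iff_nat 1]
  simp only [sum_U]
  have h0 : Filter.Tendsto (fun n : ℕ => (1/2:ℝ)^n * nrm v) Filter.atTop (nhds 0) := by
    have := (tendsto_pow_atTop_nhds_zero_of_lt_one (r := (1/2:ℝ)) (by norm_num)
      (by norm_num)).mul_const (nrm v)
    rwa [zero_mul] at this
  have h1 : Filter.Tendsto (fun n : ℕ => R b t v - P n b t v) Filter.atTop (nhds 0) := by
    apply squeeze_zero_norm _ h0
    intro n
    exact R_sub_P n b t v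
  have h2 := h1.const_sub (R b t v)
  simpa using h2

lemma U_zero (n : ℕ) (b : ℕ →₀ ℤ) (v : ℕ →₀ ℝ) : U n b 0 v = 0 := by
  have h : ∀ n, P n b 0 v = 0 := by
    intro n
    have : q n b 0 = 0 := Nat.le_zero.1 (q_le n b 0)
    simp [P, this]
  cases n with
  | zero => exact h 0
  | succ n => simp [U, h]

lemma P_congr {n : ℕ} {b : ℕ →₀ ℤ} {s t : ℕ} (h : fl n b s = fl n b t) (v : ℕ →₀ ℝ) :
    P n b s v = P n b t v := by
  unfold P
  rw [q_congr h]

lemma U_congr {n : ℕ} {b : ℕ →₀ ℤ} {s t : ℕ} (h : fl n b s = fl n b t) (v : ℕ →₀ ℝ) :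
    U n b s v = U n b t v := by
  cases n with
  | zero => exact P_congr h v
  | succ n =>
    have h' : fl n b s = fl n b t := by rw [fl_succ n b s, fl_succ n b t, h]
    simp only [U]
    rw [P_congr h, P_congr h']

/-! ## Locality -/

/-- restriction to the times before `t` -/
def res (b : ℕ →₀ ℤ) (t : ℕ) : ℕ →₀ ℤ := b.filter (fun i => i < t)

lemma res_apply (b : ℕ →₀ ℤ) {t i : ℕ} (h : i < t) : res b t i = b i :=
  Finsupp.filter_apply_pos _ _ h

lemma res_apply_neg (b : ℕ →₀ ℤ) {t i : ℕ} (h : ¬ i < t) : res b t i = 0 :=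
  Finsupp.filter_apply_neg _ _ h

lemma bh_res (b : ℕ →₀ ℤ) {t i : ℕ} (h : i < t) : bh (res b t) i = bh b i := by
  unfold bh
  rw [res_apply b h]

lemma M_res (b : ℕ →₀ ℤ) {s t : ℕ} (h : s ≤ t) : M (res b t) s = M b s := by
  unfold M
  apply Finset.sum_congr rfl
  intro i hi
  rw [bh_res b (lt_of_lt_of_le (Finset.mem_range.1 hi) h)]

lemma fl_res (n : ℕ) (b : ℕ →₀ ℤ) {s t : ℕ} (h : s ≤ t) : fl n (res b t) s = fl n b s := by
  unfold fl
  rw [M_res b h]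

lemma q_res (n : ℕ) (b : ℕ →₀ ℤ) {s t : ℕ} (h : s ≤ t) : q n (res b t) s = q n b s := by
  classical
  apply le_antisymm
  · apply Nat.find_min'
    rw [fl_res n b h, fl_res n b ((q_le n b s).trans h), fl_q]
  · apply Nat.find_min'
    have h1 := fl_q n (res b t) s
    rwa [fl_res n b h, fl_res n b ((q_le n (res b t) s).trans h)] at h1

lemma P_res (n : ℕ) (b : ℕ →₀ ℤ) {s t : ℕ} (h : s ≤ t) (v : ℕ →₀ ℝ) :
    P n (res b t) s v = P n b s v := by
  unfold P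
  rw [q_res n b h]
  apply Finset.sum_congr rfl
  intro i hi
  rw [bh_res b (lt_of_lt_of_le (Finset.mem_range.1 hi) ((q_le n b s).trans h))]

lemma U_res (n : ℕ) (b : ℕ →₀ ℤ) {s t : ℕ} (h : s ≤ t) (v : ℕ →₀ ℝ) :
    U n (res b t) s v = U n b s v := by
  cases n with
  | zero => exact P_res 0 b h v
  | succ n =>
    simp only [U]
    rw [P_res (n+1) b h, P_res n b h]

/-! ## Boxes -/

lemma eta_pos (i : ℕ) : 0 < eta i := by unfold eta; positivity

lemma ball_bound {b : ℕ →₀ ℤ} (hb : Ball b) (i : ℕ) : |b i| ≤ 2^(i+2) := by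
  have h1 : (bh b i)^2 ≤ 1 := by
    refine le_trans ?_ (hb (i+1))
    unfold M
    exact Finset.single_le_sum (f := fun i => (bh b i)^2) (fun _ _ => sq_nonneg _)
      (Finset.mem_range.2 (Nat.lt_succ_self i))
  have h2 : |bh b i| ≤ 1 := by
    rw [← sq_le_one_iff_abs_le_one]; exact h1
  unfold bh at h2
  rw [abs_mul, abs_of_pos (eta_pos i)] at h2
  unfold eta at h2
  have h3 : |(b i : ℝ)| ≤ 2^(i+2) := by
    have h4 : ((1:ℝ)/2)^(i+2) * 2^(i+2) = 1 := by rw [← mul_pow]; norm_num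
    have h5 : (0:ℝ) < 2^(i+2) := by positivity
    calc |(b i : ℝ)| = |(b i : ℝ)| * (1/2)^(i+2) * 2^(i+2) := by rw [mul_assoc, h4, mul_one]
      _ ≤ 1 * 2^(i+2) := mul_le_mul_of_nonneg_right h2 h5.le
      _ = 2^(i+2) := one_mul _
  exact_mod_cast h3

/-- upper bound vector -/
def bd (m : ℕ) : ℕ →₀ ℤ := Finsupp.onFinset (range m) (fun i => if i < m then 2^(i+2) else 0)
  (by intro i hi; by_contra h; rw [Finset.mem_range] at h; simp [h] at hi)

lemma bd_apply (m i : ℕ) : bd m i = if i < m then 2^(i+2) else 0 := rfl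

/-- the finite set of possible prefixes -/
def box (m : ℕ) : Finset (ℕ →₀ ℤ) := Finset.Icc (-bd m) (bd m)

lemma res_mem_box {b : ℕ →₀ ℤ} (hb : Ball b) {t m : ℕ} (h : t ≤ m) : res b t ∈ box m := by
  unfold box
  rw [Finset.mem_Icc]
  have key : ∀ i, |res b t i| ≤ bd m i := by
    intro i
    rw [bd_apply]
    by_cases hi : i < t
    · rw [res_apply b hi, if_pos (lt_of_lt_of_le hi h)]
      exact ball_bound hb i
    · rw [res_apply_neg b hi, abs_zero]
      split_ifs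
      · positivity
      · exact le_refl _
  constructor
  · intro i
    have := (abs_le.1 (key i)).1
    simpa using this
  · intro i
    exact (abs_le.1 (key i)).2

end

end Pool.Agent.K9h84.CQ
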