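import Mathlib
import Pool.Agent.K9h84.CQ.Basic

set_option autoImplicit false

/-!
# The countable compact space and the functions `w v`
-/

namespace Pool.Agent.K9h84.CQ

open Finset

noncomputable section

/-- tokens: a level, a time and a prefix -/
abbrev D : Type := ℕ × ℕ × (ℕ →₀ ℤ)

/-- the defining condition of the compact space: a set of tokens has at most `4^n` elements as soon
as it contains a token of level `n` -/
def Good (x : D → Bool) : Prop :=
  ∀ F : Finset D, (∀ d ∈ F, x d = true) → ∀ d ∈ F, F.card ≤ 4^(d.1)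

/-- the compact space -/
def KK : Type := {x : D → Bool // Good x}

instance : TopologicalSpace KK := inferInstanceAs (TopologicalSpace {x : D → Bool // Good x})

instance : T2Space KK := inferInstanceAs (T2Space {x : D → Bool // Good x})

lemma isClosed_good : IsClosed {x : D → Bool | Good x} := by
  have h : {x : D → Bool | Good x} =
      ⋂ F : Finset D, {x : D → Bool | (∀ d ∈ F, x d = true) → ∀ d ∈ F, F.card ≤ 4^(d.1)} := by
    ext x
    simp only [Set.mem_ofPred_eq, Set.mem_iInter]
    exact Iff.rfl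
  rw [h]
  apply isClosed_iInter
  intro F
  by_cases hF : ∀ d ∈ F, F.card ≤ 4^(d.1)
  · convert isClosed_univ
    ext x
    simp only [Set.mem_ofPred_eq, Set.mem_univ, iff_true]
    intro _
    exact hF
  · have h2 : {x : D → Bool | (∀ d ∈ F, x d = true) → ∀ d ∈ F, F.card ≤ 4^(d.1)} =
        (⋂ d ∈ F, {x : D → Bool | x d = true})ᶜ := by
      ext x
      simp only [Set.mem_ofPred_eq, Set.mem_compl_iff, Set.mem_iInter]
      constructor
      · intro h3 h4
        exact hF (h3 h4)
      · intro h3 h4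
        exact absurd h4 h3
    rw [h2]
    apply IsOpen.isClosed_compl
    apply isOpen_biInter_finset
    intro d _
    have h5 : IsOpen ((fun x : D → Bool => x d) ⁻¹' ({true} : Set Bool)) :=
      (isOpen_discrete _).preimage (continuous_apply d)
    exact h5

instance : CompactSpace KK := isCompact_iff_compactSpace.1 isClosed_good.isCompact

lemma finite_supp (x : KK) : {d : D | x.1 d = true}.Finite := by
  by_contra h
  have hinf : {d : D | x.1 d = true}.Infinite := h
  obtain ⟨d0, hd0⟩ := hinf.nonempty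
  obtain ⟨F, hF, hc⟩ := hinf.exists_subset_card_eq (4^(d0.1) + 1)
  have h1 := x.2 (insert d0 F) (by
    intro d hd
    rcases Finset.mem_insert.1 hd with h | h
    · rw [h]; exact hd0
    · exact hF h) d0 (Finset.mem_insert_self _ _)
  have h2 := Finset.card_le_card (Finset.subset_insert d0 F)
  omega

instance : Countable KK := by
  let f : KK → Finset D := fun x => (finite_supp x).toFinset
  have hf : Function.Injective f := by
    intro x y h
    apply Subtype.ext
    funext d
    have h1 : d ∈ f x ↔ d ∈ f y := by rw [h]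
    simp only [f, Set.Finite.mem_toFinset, Set.mem_ofPred_eq] at h1
    exact Bool.eq_iff_iff.2 h1
  exact hf.countable

/-! ## The functions -/

/-- truncation -/
def clip (r x : ℝ) : ℝ := max (-r) (min r x)

lemma continuous_clip (r : ℝ) : Continuous (clip r) := by
  unfold clip
  fun_prop

lemma clip_abs {r : ℝ} (hr : 0 ≤ r) (x : ℝ) : |clip r x| ≤ r := by
  unfold clip
  rw [abs_le]
  constructor
  · exact le_max_left _ _
  · exact max_le (by linarith) (min_le_left _ _)

lemma clip_eq {r x : ℝ} (h : |x| ≤ r) : clip r x = x := by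
  unfold clip
  rw [abs_le] at h
  rw [min_eq_right h.2, max_eq_right h.1]

/-- a time after the support of `v` -/
def tv (v : ℕ →₀ ℝ) : ℕ := v.support.sup id + 1

lemma support_sub (v : ℕ →₀ ℝ) : v.support ⊆ range (tv v) := by
  intro i hi
  rw [Finset.mem_range]
  have : id i ≤ v.support.sup id := Finset.le_sup hi
  unfold tv
  simp only [id] at this ⊢
  exact Nat.lt_succ_of_le this

/-- the level `n` function, before scaling -/
def g (n m : ℕ) (v : ℕ →₀ ℝ) (x : D → Bool) : ℝ :=
  ∑ k ∈ range m, ∑ c ∈ box m, if x (n, k, c) = true then U n c (k+1) v - U n c k v else 0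

lemma continuous_g (n m : ℕ) (v : ℕ →₀ ℝ) : Continuous (g n m v) := by
  unfold g
  apply continuous_finsetSum
  intro k _
  apply continuous_finsetSum
  intro c _
  have h1 : Continuous (fun b : Bool => if b = true then U n c (k+1) v - U n c k v else 0) :=
    continuous_of_discreteTopology
  exact h1.comp (continuous_apply _)

/-- the scaled level `n` function -/
def hh (n : ℕ) (v : ℕ →₀ ℝ) (x : D → Bool) : ℝ :=
  (3/4)^n * clip (3 * nrm v) (2^n * g n (tv v) v x)

lemma continuous_hh (n : ℕ) (v : ℕ →₀ ℝ) : Continuous (hh n v) :=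
  continuous_const.mul ((continuous_clip _).comp (continuous_const.mul (continuous_g _ _ _)))

lemma hh_le (n : ℕ) (v : ℕ →₀ ℝ) (x : D → Bool) : ‖hh n v x‖ ≤ (3/4)^n * (3 * nrm v) := by
  unfold hh
  rw [norm_mul, Real.norm_eq_abs, Real.norm_eq_abs, abs_of_pos (by positivity)]
  exact mul_le_mul_of_nonneg_left (clip_abs (by have := nrm_nonneg v; linarith) _) (by positivity)

lemma summable_bound (v : ℕ →₀ ℝ) : Summable (fun n : ℕ => (3/4:ℝ)^n * (3 * nrm v)) :=
  (summable_geometric_of_lt_one (by norm_num) (by norm_num)).mul_right _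

/-- the continuous function attached to `v` -/
def w (v : ℕ →₀ ℝ) : C(KK, ℝ) where
  toFun x := ∑' n, hh n v x.1
  continuous_toFun := continuous_tsum
    (fun n => (continuous_hh n v).comp continuous_subtype_val) (summable_bound v)
    (fun n x => hh_le n v x.1)

lemma w_apply (v : ℕ →₀ ℝ) (x : KK) : w v x = ∑' n, hh n v x.1 := rfl

lemma norm_w_le (v : ℕ →₀ ℝ) : ‖w v‖ ≤ 12 * nrm v := by
  rw [ContinuousMap.norm_le _ (by have := nrm_nonneg v; linarith)]
  intro x
  rw [w_apply]
  refine (tsum_of_norm_bounded (summable_bound v).hasSum (fun n => hh_le n v x.1)).trans ?_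
  rw [tsum_mul_right, tsum_geometric_of_lt_one (by norm_num) (by norm_num)]
  norm_num
  linarith [nrm_nonneg v]

/-! ## The points -/

open Classical in
/-- the point of level `n` attached to `b` -/
def pt (n : ℕ) (b : ℕ →₀ ℤ) (d : D) : Bool :=
  decide (d.1 = n ∧ fl n b d.2.1 ≠ fl n b (d.2.1+1) ∧ d.2.2 = res b (d.2.1+1))

lemma pt_true {n : ℕ} {b : ℕ →₀ ℤ} {d : D} : pt n b d = true ↔
    (d.1 = n ∧ fl n b d.2.1 ≠ fl n b (d.2.1+1) ∧ d.2.2 = res b (d.2.1+1)) := by
  unfold pt
  rw [decide_eq_true_iff]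

lemma fl_le {b : ℕ →₀ ℤ} (hb : Ball b) (n t : ℕ) : fl n b t ≤ 4^n := by
  unfold fl
  apply Nat.floor_le_of_le
  push_cast
  have : (0:ℝ) < 4^n := by positivity
  calc (4:ℝ)^n * M b t ≤ 4^n * 1 := mul_le_mul_of_nonneg_left (hb t) this.le
    _ = 4^n := mul_one _

lemma good_pt {b : ℕ →₀ ℤ} (hb : Ball b) (n : ℕ) : Good (pt n b) := by
  intro F hF d hd
  have h1 : d.1 = n := (pt_true.1 (hF d hd)).1
  rw [h1]
  have h2 : F.card ≤ (Finset.Icc 1 (4^n)).card := by
    apply Finset.card_le_card_of_injOn (fun d => fl n b (d.2.1+1))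
    · intro e he
      have he2 := pt_true.1 (hF e he)
      simp only [Finset.coe_Icc, Set.mem_Icc]
      refine ⟨?_, fl_le hb n _⟩
      have h3 := fl_mono n b (Nat.le_succ e.2.1)
      have h4 := he2.2.1
      simp only [Nat.succ_eq_add_one] at h3
      omega
    · intro e he e' he' hee
      have he2 := pt_true.1 (hF e he)
      have he2' := pt_true.1 (hF e' he')
      simp only at hee
      have h5 : e.2.1 = e'.2.1 := by
        rcases lt_trichotomy e.2.1 e'.2.1 with h | h | h
        · exfalso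
          have h6 : fl n b (e.2.1+1) ≤ fl n b e'.2.1 := fl_mono n b h
          have h7 := fl_mono n b (Nat.le_succ e'.2.1)
          simp only [Nat.succ_eq_add_one] at h7
          have h8 := he2'.2.1
          omega
        · exact h
        · exfalso
          have h6 : fl n b (e'.2.1+1) ≤ fl n b e.2.1 := fl_mono n b h
          have h7 := fl_mono n b (Nat.le_succ e.2.1)
          simp only [Nat.succ_eq_add_one] at h7
          have h8 := he2.2.1
          omega
      have h9 : e.2.2 = e'.2.2 := by rw [he2.2.2, he2'.2.2, h5]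
      have h10 : e.1 = e'.1 := by rw [he2.1, he2'.1]
      exact Prod.ext h10 (Prod.ext h5 h9)
  rwa [Nat.card_Icc, Nat.add_sub_cancel] at h2

/-- the point of the compact space of level `n` attached to `b` -/
def Pt {b : ℕ →₀ ℤ} (hb : Ball b) (n : ℕ) : KK := ⟨pt n b, good_pt hb n⟩

lemma g_pt {b : ℕ →₀ ℤ} (hb : Ball b) (n m : ℕ) (v : ℕ →₀ ℝ) : g n m v (pt n b) = U n b m v := by
  have h1 : ∀ k ∈ range m, (∑ c ∈ box m,
      if pt n b (n, k, c) = true then U n c (k+1) v - U n c k v else 0) =
      U n b (k+1) v - U n b k v := by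
    intro k hk
    rw [Finset.mem_range] at hk
    by_cases hj : fl n b k = fl n b (k+1)
    · rw [U_congr hj, sub_self]
      apply Finset.sum_eq_zero
      intro c _
      rw [if_neg]
      intro h
      exact (pt_true.1 h).2.1 hj
    · rw [Finset.sum_eq_single (res b (k+1))]
      · have hp : pt n b (n, k, res b (k+1)) = true := pt_true.2 ⟨rfl, hj, rfl⟩
        rw [if_pos hp, U_res n b le_rfl, U_res n b (Nat.le_succ k)]
      · intro c _ hc
        rw [if_neg]
        intro h
        exact hc (pt_true.1 h).2.2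
      · intro h
        exact absurd (res_mem_box hb hk) h
  unfold g
  rw [Finset.sum_congr rfl h1, Finset.sum_range_sub (fun k => U n b k v) m, U_zero, sub_zero]

lemma g_pt_ne {b : ℕ →₀ ℤ} {n k : ℕ} (h : k ≠ n) (m : ℕ) (v : ℕ →₀ ℝ) :
    g k m v (pt n b) = 0 := by
  unfold g
  apply Finset.sum_eq_zero
  intro j _
  apply Finset.sum_eq_zero
  intro c _
  rw [if_neg]
  intro h1
  exact h (pt_true.1 h1).1

lemma hh_pt {b : ℕ →₀ ℤ} (hb : Ball b) (n : ℕ) (v : ℕ →₀ ℝ) :
    hh n v (pt n b) = (3/2)^n * U n b (tv v) v := by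
  unfold hh
  rw [g_pt hb, clip_eq]
  · rw [← mul_assoc, ← mul_pow]
    norm_num
  · rw [abs_mul, abs_of_pos (by positivity)]
    have h1 := U_le hb n (tv v) v
    have h2 : (0:ℝ) < 2^n := by positivity
    have h3 : (2:ℝ)^n * (1/2)^n = 1 := by rw [← mul_pow]; norm_num
    calc (2:ℝ)^n * |U n b (tv v) v| ≤ 2^n * (3 * (1/2)^n * nrm v) :=
          mul_le_mul_of_nonneg_left h1 h2.le
      _ = (2^n * (1/2)^n) * (3 * nrm v) := by ring
      _ = 3 * nrm v := by rw [h3, one_mul]

lemma hh_pt_ne {b : ℕ →₀ ℤ} {n k : ℕ} (h : k ≠ n) (v : ℕ →₀ ℝ) : hh k v (pt n b) = 0 := by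
  unfold hh
  rw [g_pt_ne h, mul_zero, clip_eq, mul_zero]
  rw [abs_zero]
  have := nrm_nonneg v
  linarith

lemma w_pt {b : ℕ →₀ ℤ} (hb : Ball b) (n : ℕ) (v : ℕ →₀ ℝ) :
    w v (Pt hb n) = (3/2)^n * U n b (tv v) v := by
  rw [w_apply, tsum_eq_single n]
  · exact hh_pt hb n v
  · intro k hk
    exact hh_pt_ne hk v

/-! ## The functionals -/

/-- the scalar product with the coded vector -/
def ip (b : ℕ →₀ ℤ) : (ℕ →₀ ℝ) →ₗ[ℝ] ℝ := Finsupp.linearCombination ℝ (bh b)

lemma ip_eq (b : ℕ →₀ ℤ) {v : ℕ →₀ ℝ} {t : ℕ} (h : v.support ⊆ range t) : ip b v = R b t v := by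
  unfold ip R
  rw [Finsupp.linearCombination_apply, Finsupp.sum_of_support_subset _ h _ (by simp)]
  apply Finset.sum_congr rfl
  intro i _
  rw [smul_eq_mul, mul_comm]

lemma summable_L {b : ℕ →₀ ℤ} (hb : Ball b) (f : C(KK, ℝ)) :
    Summable (fun n : ℕ => (2/3:ℝ)^n * f (Pt hb n)) := by
  apply Summable.of_norm_bounded (g := fun n : ℕ => (2/3:ℝ)^n * ‖f‖)
  · exact (summable_geometric_of_lt_one (by norm_num) (by norm_num)).mul_right _
  · intro n
    rw [norm_mul, Real.norm_eq_abs, abs_of_pos (by positivity)]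
    exact mul_le_mul_of_nonneg_left (f.norm_coe_le_norm _) (by positivity)

/-- the functional attached to `b` -/
def L {b : ℕ →₀ ℤ} (hb : Ball b) : C(KK, ℝ) →L[ℝ] ℝ :=
  LinearMap.mkContinuous
    { toFun := fun f => ∑' n, (2/3:ℝ)^n * f (Pt hb n)
      map_add' := fun f f' => by
        rw [← (summable_L hb f).tsum_add (summable_L hb f')]
        congr 1
        funext n
        rw [ContinuousMap.add_apply]
        ring
      map_smul' := fun r f => by
        rw [RingHom.id_apply, smul_eq_mul, ← tsum_mul_left]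
        congr 1
        funext n
        rw [ContinuousMap.smul_apply, smul_eq_mul]
        ring } 3 (by
      intro f
      have h1 : ∀ n : ℕ, ‖(2/3:ℝ)^n * f (Pt hb n)‖ ≤ (2/3:ℝ)^n * ‖f‖ := by
        intro n
        rw [norm_mul, Real.norm_eq_abs, abs_of_pos (by positivity)]
        exact mul_le_mul_of_nonneg_left (f.norm_coe_le_norm _) (by positivity)
      have h2 : Summable (fun n : ℕ => (2/3:ℝ)^n * ‖f‖) :=
        (summable_geometric_of_lt_one (by norm_num) (by norm_num)).mul_right _
      have h3 := tsum_of_norm_bounded h2.hasSum h1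
      rw [tsum_mul_right, tsum_geometric_of_lt_one (by norm_num) (by norm_num)] at h3
      norm_num at h3
      exact h3)

lemma L_apply {b : ℕ →₀ ℤ} (hb : Ball b) (f : C(KK, ℝ)) :
    L hb f = ∑' n, (2/3:ℝ)^n * f (Pt hb n) := rfl

lemma L_le {b : ℕ →₀ ℤ} (hb : Ball b) (f : C(KK, ℝ)) : |L hb f| ≤ 3 * ‖f‖ :=
  (L hb).le_of_opNorm_le (LinearMap.mkContinuous_norm_le _ (by norm_num) _) f

lemma L_w {b : ℕ →₀ ℤ} (hb : Ball b) (v : ℕ →₀ ℝ) : L hb (w v) = ip b v := by
  rw [L_apply, ip_eq b (support_sub v), ← (hasSum_U hb (tv v) v).tsum_eq]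
  congr 1
  funext n
  rw [w_pt, ← mul_assoc, ← mul_pow]
  norm_num

end

end Pool.Agent.K9h84.CQ
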