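import Mathlib
import Pool.Agent.K9h84.CQ.Space

set_option autoImplicit false

/-!
# The quotient space and the copy of `ℓ_2` in it
-/

namespace Pool.Agent.K9h84.CQ

open Finset
open scoped ZeroAtInfty

noncomputable section

/-- the kernel of all the functionals -/
def Z : Submodule ℝ C(KK, ℝ) where
  carrier := {f | ∀ (b : ℕ →₀ ℤ) (hb : Ball b), L hb f = 0}
  zero_mem' := fun b hb => map_zero _
  add_mem' := fun {f f'} h h' b hb => by rw [map_add, h b hb, h' b hb, add_zero]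
  smul_mem' := fun r f h b hb => by rw [map_smul, h b hb, smul_zero]

lemma mem_Z {f : C(KK, ℝ)} : f ∈ Z ↔ ∀ (b : ℕ →₀ ℤ) (hb : Ball b), L hb f = 0 := Iff.rfl

lemma isClosed_Z : IsClosed (Z : Set C(KK, ℝ)) := by
  have h : (Z : Set C(KK, ℝ)) = ⋂ (b : ℕ →₀ ℤ) (hb : Ball b), {f | L hb f = 0} := by
    ext f
    simp only [SetLike.mem_coe, mem_Z, Set.mem_iInter, Set.mem_ofPred_eq]
  rw [h]
  refine isClosed_iInter fun b => isClosed_iInter fun hb => ?_
  exact isClosed_eq (L hb).continuous continuous_const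

instance : IsClosed (Z : Set C(KK, ℝ)) := isClosed_Z

/-- the quotient space -/
def X : Type := C(KK, ℝ) ⧸ Z

instance instNACG : NormedAddCommGroup X := Submodule.Quotient.normedAddCommGroup Z

instance instNS : NormedSpace ℝ X := Submodule.Quotient.normedSpace Z ℝ

instance instCS : CompleteSpace X := Submodule.Quotient.completeSpace Z

/-- the quotient map, as a linear map -/
def mkl : C(KK, ℝ) →ₗ[ℝ] X := Z.mkQ

lemma mkl_norm (f : C(KK, ℝ)) : ‖mkl f‖ ≤ ‖f‖ := Submodule.Quotient.norm_mk_le Z f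

lemma mkl_surj : Function.Surjective mkl := Submodule.mkQ_surjective Z

lemma mkl_eq {f f' : C(KK, ℝ)} : mkl f = mkl f' ↔ f - f' ∈ Z := Submodule.Quotient.eq Z

lemma mkl_lift (y : X) {ε : ℝ} (hε : 0 < ε) : ∃ f, mkl f = y ∧ ‖f‖ < ‖y‖ + ε :=
  Submodule.Quotient.norm_mk_lt (S := Z) y hε

/-- the quotient map -/
def mk : C(KK, ℝ) →L[ℝ] X := mkl.mkContinuous 1 (fun f => by rw [one_mul]; exact mkl_norm f)

lemma mk_surj : Function.Surjective mk := mkl_surj

/-- the embedding of the finitely supported sequences -/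
def J : (ℕ →₀ ℝ) →ₗ[ℝ] X where
  toFun v := mkl (w v)
  map_add' v v' := by
    rw [← map_add, mkl_eq, mem_Z]
    intro b hb
    rw [map_sub, map_add, L_w, L_w, L_w, map_add, sub_self]
  map_smul' r v := by
    rw [RingHom.id_apply, ← map_smul, mkl_eq, mem_Z]
    intro b hb
    rw [map_sub, map_smul, L_w, L_w, map_smul, sub_self]

lemma J_apply (v : ℕ →₀ ℝ) : J v = mkl (w v) := rfl

lemma norm_J_le (v : ℕ →₀ ℝ) : ‖J v‖ ≤ 12 * nrm v :=
  (mkl_norm (w v)).trans (norm_w_le v)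

lemma ip_le_J {b : ℕ →₀ ℤ} (hb : Ball b) (v : ℕ →₀ ℝ) : |ip b v| ≤ 3 * ‖J v‖ := by
  apply le_of_forall_pos_le_add
  intro ε hε
  obtain ⟨f, hf, hlt⟩ := mkl_lift (J v) (ε := ε/3) (by positivity)
  rw [J_apply, mkl_eq, mem_Z] at hf
  have h1 := hf b hb
  rw [map_sub, L_w, sub_eq_zero] at h1
  rw [← h1]
  refine (L_le hb f).trans ?_
  linarith

/-! ## Norming -/

/-- rounding towards zero -/
def tr (x : ℝ) : ℤ := if 0 ≤ x then ⌊x⌋ else -⌊-x⌋

lemma tr_zero : tr 0 = 0 := by simp [tr]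

lemma tr_abs (x : ℝ) : |(tr x : ℝ)| ≤ |x| := by
  unfold tr
  split_ifs with h
  · have h1 : (0:ℝ) ≤ (⌊x⌋ : ℝ) := by exact_mod_cast Int.floor_nonneg.2 h
    rw [abs_of_nonneg h1, abs_of_nonneg h]
    exact Int.floor_le x
  · push Not at h
    have h1 : (0:ℝ) ≤ (⌊-x⌋ : ℝ) := by exact_mod_cast Int.floor_nonneg.2 (by linarith)
    rw [abs_of_neg h]
    push_cast
    rw [abs_neg, abs_of_nonneg h1]
    exact Int.floor_le (-x)

lemma tr_mul (x : ℝ) : x^2 - |x| ≤ x * tr x := by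
  unfold tr
  split_ifs with h
  · rw [abs_of_nonneg h]
    have h1 := Int.lt_floor_add_one x
    nlinarith
  · push Not at h
    rw [abs_of_neg h]
    push_cast
    have h1 := Int.lt_floor_add_one (-x)
    nlinarith

lemma sum_eta (m : ℕ) : ∑ i ∈ range m, (eta i)^2 ≤ 1/4 - (1/4)^(m+1) := by
  induction m with
  | zero => norm_num
  | succ m ih =>
    rw [Finset.sum_range_succ]
    have h1 : (eta m)^2 = (1/4)^(m+2) := by
      unfold eta
      rw [← pow_mul, mul_comm (m+2) 2, pow_mul]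
      norm_num
    rw [h1]
    have h2 : ((1:ℝ)/4)^(m+1) = 4 * (1/4)^(m+2) := by
      rw [pow_succ _ (m+1)]
      ring
    have h3 : (0:ℝ) < (1/4)^(m+2) := by positivity
    rw [h2] at ih
    linarith

/-- the coded vector close to `u` -/
def code (u : ℕ →₀ ℝ) : ℕ →₀ ℤ :=
  Finsupp.onFinset u.support (fun i => tr (u i / eta i)) (by
    intro i hi
    rw [Finsupp.mem_support_iff]
    intro h
    rw [h, zero_div, tr_zero] at hi
    exact hi rfl)

lemma code_apply (u : ℕ →₀ ℝ) (i : ℕ) : code u i = tr (u i / eta i) := rfl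

lemma bh_code_abs (u : ℕ →₀ ℝ) (i : ℕ) : |bh (code u) i| ≤ |u i| := by
  unfold bh
  rw [code_apply, abs_mul, abs_of_pos (eta_pos i)]
  have h1 := tr_abs (u i / eta i)
  rw [abs_div, abs_of_pos (eta_pos i), le_div_iff₀ (eta_pos i)] at h1
  exact h1

lemma bh_code_mul (u : ℕ →₀ ℝ) (i : ℕ) : 3/4 * (u i)^2 - (eta i)^2 ≤ bh (code u) i * u i := by
  unfold bh
  rw [code_apply]
  have h1 := tr_mul (u i / eta i)
  have hp := eta_pos i
  have h2 : (tr (u i / eta i) : ℝ) * eta i * u i = (eta i)^2 * (u i / eta i * tr (u i / eta i)) := by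
    field_simp
  have h3 : (eta i)^2 * ((u i / eta i)^2 - |u i / eta i|) = (u i)^2 - eta i * |u i| := by
    rw [abs_div, abs_of_pos hp]
    field_simp
  have h4 : (eta i)^2 * ((u i / eta i)^2 - |u i / eta i|) ≤
      (eta i)^2 * (u i / eta i * tr (u i / eta i)) := mul_le_mul_of_nonneg_left h1 (sq_nonneg _)
  rw [h2]
  rw [h3] at h4
  have h5 : 0 ≤ (eta i - |u i| / 2)^2 := sq_nonneg _
  have h6 : |u i|^2 = (u i)^2 := sq_abs _
  nlinarith

lemma ball_code {u : ℕ →₀ ℝ} (hu : n2 u ≤ 1) : Ball (code u) := by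
  intro t
  unfold M
  refine le_trans ?_ ((sum_sq_le u (range t)).trans hu)
  apply Finset.sum_le_sum
  intro i _
  exact sq_le_sq.2 (bh_code_abs u i)

lemma ip_code {u : ℕ →₀ ℝ} (hu : n2 u = 1) : 1/2 ≤ ip (code u) u := by
  rw [ip_eq _ (support_sub u)]
  unfold R
  have h1 : ∑ i ∈ range (tv u), (3/4 * (u i)^2 - (eta i)^2) ≤
      ∑ i ∈ range (tv u), bh (code u) i * u i := Finset.sum_le_sum fun i _ => bh_code_mul u i
  rw [Finset.sum_sub_distrib, ← Finset.mul_sum, ← n2_eq (support_sub u), hu] at h1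
  have h2 := sum_eta (tv u)
  have h3 : (0:ℝ) < (1/4)^(tv u + 1) := by positivity
  linarith

lemma n2_smul (r : ℝ) (v : ℕ →₀ ℝ) : n2 (r • v) = r^2 * n2 v := by
  rw [n2_eq (s := v.support) Finsupp.support_smul]
  unfold n2
  rw [Finset.mul_sum]
  apply Finset.sum_congr rfl
  intro i _
  rw [Finsupp.smul_apply, smul_eq_mul, mul_pow]

lemma n2_eq_zero {v : ℕ →₀ ℝ} (h : n2 v = 0) : v = 0 := by
  ext i
  unfold n2 at h
  rw [Finset.sum_eq_zero_iff_of_nonneg (fun _ _ => sq_nonneg _)] at h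
  by_cases hi : i ∈ v.support
  · have := h i hi
    simpa using this
  · simpa using hi

lemma nrm_le_J (v : ℕ →₀ ℝ) : nrm v ≤ 6 * ‖J v‖ := by
  by_cases hv : n2 v = 0
  · rw [n2_eq_zero hv, map_zero, norm_zero, mul_zero]
    unfold nrm n2
    simp
  · have h0 : 0 < n2 v := lt_of_le_of_ne (n2_nonneg v) (Ne.symm hv)
    have h1 : 0 < nrm v := Real.sqrt_pos.2 h0
    set u : ℕ →₀ ℝ := (nrm v)⁻¹ • v with hu
    have h2 : n2 u = 1 := by
      rw [hu, n2_smul, inv_pow, nrm_sq]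
      exact inv_mul_cancel₀ hv
    have h3 := ip_code h2
    have h4 := ip_le_J (ball_code h2.le) u
    have h5 : 1/2 ≤ 3 * ‖J u‖ := h3.trans ((le_abs_self _).trans h4)
    rw [hu, map_smul, norm_smul, Real.norm_eq_abs, abs_of_pos (inv_pos.2 h1)] at h5
    have h6 : nrm v * (1/2) ≤ nrm v * (3 * ((nrm v)⁻¹ * ‖J v‖)) :=
      mul_le_mul_of_nonneg_left h5 h1.le
    have h7 : nrm v * (3 * ((nrm v)⁻¹ * ‖J v‖)) = 3 * ‖J v‖ := by
      field_simp
    rw [h7] at h6
    linarith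

/-! ## Signs -/

lemma n2_add_sub (x y : ℕ →₀ ℝ) : n2 (x + y) + n2 (x - y) = 2 * n2 x + 2 * n2 y := by
  set s := x.support ∪ y.support with hs
  have hx : x.support ⊆ s := Finset.subset_union_left
  have hy : y.support ⊆ s := Finset.subset_union_right
  have h1 : (x + y).support ⊆ s := Finsupp.support_add
  have h2 : (x - y).support ⊆ s := Finsupp.support_sub
  rw [n2_eq hx, n2_eq hy, n2_eq h1, n2_eq h2, ← Finset.sum_add_distrib, Finset.mul_sum,
    Finset.mul_sum, ← Finset.sum_add_distrib]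
  apply Finset.sum_congr rfl
  intro i _
  rw [Finsupp.add_apply, Finsupp.sub_apply]
  ring

lemma exists_signs (v : ℕ → (ℕ →₀ ℝ)) (n : ℕ) : ∃ ε : ℕ → ℝ, (∀ i, |ε i| = 1) ∧
    ∑ i ∈ range n, n2 (v i) ≤ n2 (∑ i ∈ range n, ε i • v i) := by
  induction n with
  | zero => exact ⟨fun _ => 1, fun _ => abs_one, by simp [n2]⟩
  | succ n ih =>
    obtain ⟨ε, h1, h2⟩ := ih
    set x := ∑ i ∈ range n, ε i • v i with hx
    have h3 := n2_add_sub x (v n)
    have key : ∀ s : ℝ, |s| = 1 → ∃ ε' : ℕ → ℝ, (∀ i, |ε' i| = 1) ∧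
        ∑ i ∈ range (n+1), ε' i • v i = x + s • v n := by
      intro s hs
      refine ⟨fun i => if i < n then ε i else s, ?_, ?_⟩
      · intro i
        by_cases hi : i < n
        · simp only [if_pos hi]; exact h1 i
        · simp only [if_neg hi]; exact hs
      · rw [Finset.sum_range_succ]
        simp only [if_neg (lt_irrefl n)]
        rw [hx]
        congr 1
        apply Finset.sum_congr rfl
        intro i hi
        rw [Finset.mem_range] at hi
        simp only [if_pos hi]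
    rcases le_total (n2 x + n2 (v n)) (n2 (x + v n)) with h | h
    · obtain ⟨ε', h4, h5⟩ := key 1 abs_one
      refine ⟨ε', h4, ?_⟩
      rw [h5, one_smul, Finset.sum_range_succ]
      linarith
    · obtain ⟨ε', h4, h5⟩ := key (-1) (by rw [abs_neg, abs_one])
      refine ⟨ε', h4, ?_⟩
      rw [h5, neg_smul, one_smul, ← sub_eq_add_neg, Finset.sum_range_succ]
      linarith

/-! ## The subspace -/

/-- the closed subspace isomorphic to `ℓ_2` -/
def Y : Submodule ℝ X := (LinearMap.range J).topologicalClosure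

lemma isClosed_Y : IsClosed (Y : Set X) := Submodule.isClosed_topologicalClosure _

lemma J_mem (v : ℕ →₀ ℝ) : J v ∈ Y :=
  Submodule.le_topologicalClosure _ (LinearMap.mem_range_self J v)

lemma J_injective : Function.Injective J := by
  rw [← LinearMap.ker_eq_bot, LinearMap.ker_eq_bot']
  intro v hv
  have h1 := nrm_le_J v
  rw [hv, norm_zero, mul_zero] at h1
  have h2 : nrm v = 0 := le_antisymm h1 (nrm_nonneg v)
  apply n2_eq_zero
  rw [← nrm_sq, h2]
  norm_num

lemma not_fd : ¬ FiniteDimensional ℝ Y := by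
  intro h
  let J' : (ℕ →₀ ℝ) →ₗ[ℝ] Y := J.codRestrict Y J_mem
  have hJ' : Function.Injective J' := by
    intro v v' hv
    apply J_injective
    exact congrArg Subtype.val hv
  have h2 : FiniteDimensional ℝ (ℕ →₀ ℝ) := FiniteDimensional.of_injective J' hJ'
  have h3 : Finite ℕ := Module.Finite.finite_basis (R := ℝ) (M := ℕ →₀ ℝ) Finsupp.basisSingleOne
  exact not_finite ℕ

/-- the sign vector in `c_0` -/
def sgn (n : ℕ) (ε : ℕ → ℝ) : C₀(ℕ, ℝ) where
  toFun i := if i < n then ε i else 0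
  continuous_toFun := continuous_of_discreteTopology
  zero_at_infty' := by
    apply tendsto_const_nhds.congr'
    rw [Filter.cocompact_eq_cofinite, Nat.cofinite_eq_atTop]
    filter_upwards [Filter.eventually_ge_atTop n] with i hi
    rw [if_neg (not_lt.2 hi)]

lemma sgn_apply (n : ℕ) (ε : ℕ → ℝ) (i : ℕ) : sgn n ε i = if i < n then ε i else 0 := rfl

/-- the unit vectors of `c_0` -/
def e0 (i : ℕ) : C₀(ℕ, ℝ) := sgn (i+1) (fun j => if j = i then 1 else 0)

lemma e0_apply (i j : ℕ) : e0 i j = if j = i then 1 else 0 := by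
  unfold e0
  rw [sgn_apply]
  by_cases h : j = i
  · rw [if_pos (by omega), if_pos h]
  · rw [if_neg h]
    split_ifs <;> rfl

lemma coe_sum (n : ℕ) (F : ℕ → C₀(ℕ, ℝ)) (j : ℕ) :
    (∑ i ∈ range n, F i) j = ∑ i ∈ range n, F i j := by
  induction n with
  | zero => simp
  | succ n ih => rw [Finset.sum_range_succ, Finset.sum_range_succ, ZeroAtInftyContinuousMap.add_apply, ih]

lemma sgn_eq_sum (n : ℕ) (ε : ℕ → ℝ) : ∑ i ∈ range n, ε i • e0 i = sgn n ε := by
  ext j
  rw [coe_sum, sgn_apply]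
  simp only [ZeroAtInftyContinuousMap.smul_apply, e0_apply, smul_eq_mul, mul_ite, mul_one, mul_zero]
  rw [Finset.sum_ite_eq]
  simp only [Finset.mem_range]

lemma norm_sgn_le (n : ℕ) (ε : ℕ → ℝ) (h : ∀ i, |ε i| = 1) : ‖sgn n ε‖ ≤ 1 := by
  rw [← ZeroAtInftyContinuousMap.norm_toBCF_eq_norm, BoundedContinuousFunction.norm_le zero_le_one]
  intro i
  change ‖sgn n ε i‖ ≤ 1
  rw [sgn_apply, Real.norm_eq_abs]
  split_ifs
  · exact (h i).le
  · rw [abs_zero]; exact zero_le_one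

lemma norm_e0_ge (i : ℕ) : 1 ≤ ‖e0 i‖ := by
  have h := BoundedContinuousFunction.norm_coe_le_norm (e0 i).toBCF i
  rw [ZeroAtInftyContinuousMap.norm_toBCF_eq_norm] at h
  refine le_trans ?_ h
  change 1 ≤ ‖e0 i i‖
  rw [e0_apply, if_pos rfl, norm_one]

theorem no_c0 (S : C₀(ℕ, ℝ) →L[ℝ] X) (hS : ∀ f, S f ∈ Y) (c : ℝ) (hc : 0 < c)
    (hl : ∀ f, c * ‖f‖ ≤ ‖S f‖) : False := by
  -- a large number of vectors
  obtain ⟨n, hn⟩ := exists_nat_gt ((144 * (‖S‖ + c) / c)^2)
  have hn0 : (0:ℝ) < n := lt_of_le_of_lt (sq_nonneg _) hn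
  have hn1 : (1:ℝ) ≤ n := by
    have : 0 < n := by exact_mod_cast hn0
    exact_mod_cast this
  have happ : ∀ i, ∃ v : ℕ →₀ ℝ, ‖S (e0 i) - J v‖ < c / (2 * n) := by
    intro i
    have h1 : S (e0 i) ∈ closure ((LinearMap.range J : Submodule ℝ X) : Set X) := hS (e0 i)
    rw [Metric.mem_closure_iff] at h1
    obtain ⟨y, ⟨v, rfl⟩, h2⟩ := h1 (c / (2 * n)) (by positivity)
    rw [dist_eq_norm] at h2
    exact ⟨v, h2⟩
  choose v hv using happ
  have hsmall : c / (2 * n) ≤ c / 2 := by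
    apply div_le_div_of_nonneg_left hc.le (by norm_num)
    linarith
  have h1 : ∀ i, c / 24 ≤ nrm (v i) := by
    intro i
    have h2 : c ≤ ‖S (e0 i)‖ := by
      refine le_trans ?_ (hl (e0 i))
      have := norm_e0_ge i
      nlinarith
    have h3 : ‖S (e0 i)‖ ≤ ‖S (e0 i) - J (v i)‖ + ‖J (v i)‖ := by
      have := norm_add_le (S (e0 i) - J (v i)) (J (v i))
      rwa [sub_add_cancel] at this
    have h4 := norm_J_le (v i)
    have h5 := hv i
    linarith
  obtain ⟨ε, hε, h6⟩ := exists_signs v n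
  have h7 : (n:ℝ) * (c/24)^2 ≤ ∑ i ∈ range n, n2 (v i) := by
    have : ∑ _i ∈ range n, (c/24)^2 ≤ ∑ i ∈ range n, n2 (v i) := by
      apply Finset.sum_le_sum
      intro i _
      rw [← nrm_sq]
      exact pow_le_pow_left₀ (by positivity) (h1 i) 2
    simpa using this
  set x := ∑ i ∈ range n, ε i • v i with hx
  have h8 : ‖J x‖ ≤ ‖S‖ + c := by
    have e1 : J x = S (sgn n ε) - ∑ i ∈ range n, ε i • (S (e0 i) - J (v i)) := by
      rw [← sgn_eq_sum, hx, map_sum, map_sum, ← Finset.sum_sub_distrib]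
      apply Finset.sum_congr rfl
      intro i _
      rw [map_smul, map_smul, smul_sub, sub_sub_cancel]
    have e2 : ‖∑ i ∈ range n, ε i • (S (e0 i) - J (v i))‖ ≤ c := by
      have e3 : ∀ i ∈ range n, ‖ε i • (S (e0 i) - J (v i))‖ ≤ c / (2 * n) := by
        intro i _
        rw [norm_smul, Real.norm_eq_abs, hε i, one_mul]
        exact (hv i).le
      refine (norm_sum_le_of_le _ e3).trans ?_
      rw [Finset.sum_const, Finset.card_range, nsmul_eq_mul]
      have : (n:ℝ) * (c / (2 * n)) = c / 2 := by field_simp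
      rw [this]
      linarith
    have e4 : ‖S (sgn n ε)‖ ≤ ‖S‖ := by
      refine (S.le_opNorm _).trans ?_
      have := norm_sgn_le n ε hε
      have h0 := norm_nonneg S
      nlinarith
    rw [e1]
    refine (norm_sub_le _ _).trans ?_
    linarith
  have h9 : nrm x ≤ 6 * (‖S‖ + c) := by
    have := nrm_le_J x
    linarith
  have h10 : n2 x ≤ (6 * (‖S‖ + c))^2 := by
    rw [← nrm_sq]
    exact pow_le_pow_left₀ (nrm_nonneg x) h9 2
  have h11 : (n:ℝ) * (c/24)^2 ≤ (6 * (‖S‖ + c))^2 := by linarith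
  have h12 : (n:ℝ) ≤ (144 * (‖S‖ + c) / c)^2 := by
    have h13 : (144 * (‖S‖ + c) / c)^2 = (6 * (‖S‖ + c))^2 / (c/24)^2 := by
      field_simp
      ring
    rw [h13, le_div_iff₀ (by positivity)]
    exact h11
  linarith

theorem main :
    ¬ (∀ (K : Type) [TopologicalSpace K] [CompactSpace K] [T2Space K] [Countable K]
      (X : Type) [NormedAddCommGroup X] [NormedSpace ℝ X] [CompleteSpace X],
      (∃ T : C(K, ℝ) →L[ℝ] X, Function.Surjective T) →
      ∀ Y : Submodule ℝ X, IsClosed (Y : Set X) → ¬ FiniteDimensional ℝ Y →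
        ∃ S : C₀(ℕ, ℝ) →L[ℝ] X, (∀ f, S f ∈ Y) ∧
          ∃ c : ℝ, 0 < c ∧ ∀ f, c * ‖f‖ ≤ ‖S f‖) := by
  intro h
  obtain ⟨S, hS, c, hc, hl⟩ := h KK X ⟨mk, mk_surj⟩ Y isClosed_Y
    not_fd
  exact no_c0 S hS c hc hl

end

end Pool.Agent.K9h84.CQ
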